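import Pool.Agent.H480.GG.Main

/-!
# A bottleneck in the Goldbach graphs

Every edge `{2 x, 2 y}` of `G_n` or of `G(n)` joins a multiple of `3` and a non-multiple of `3`,
except for the edges `{2 x, 2 x + 6}` with `2 x + 3` prime, the edge `{0, 6}` of `G_n` and the edge
`{2, 4}` of `G(n)`; and `x + y` is odd. So the vertices `2 x` with `x` congruent to `0, 1, 5` modulo
`6` and the other ones are joined by `O(n / log n)` edges only.
-/

set_option autoImplicit false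

namespace Pool.Agent.Results.MP_443e5f_co.Bottleneck

/-- `m` is an odd prime less than `2 n`. -/
def OddPrimeBelow (n m : ℕ) : Prop := m.Prime ∧ Odd m ∧ m < 2 * n

/-- The finite Goldbach graph `G_n` on `{0, 2, 4, …, 2 n}`: distinct `a`, `b` are adjacent iff
`(a + b)/2` and `|a - b|/2` are odd primes less than `2 n`. -/
def goldbach (n : ℕ) : SimpleGraph {a : ℕ // Even a ∧ a ≤ 2 * n} where
  Adj a b := a ≠ b ∧ OddPrimeBelow n (((a : ℕ) + b) / 2) ∧ OddPrimeBelow n (Nat.dist a b / 2)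
  symm := ⟨fun a b h => ⟨h.1.symm, by rw [add_comm (b : ℕ)]; exact h.2.1,
    by rw [Nat.dist_comm]; exact h.2.2⟩⟩
  loopless := ⟨fun _ h => h.1 rfl⟩

/-- The finite near Goldbach graph `G(n)` on `{2, 4, …, 2 n}`: distinct `a`, `b` are adjacent iff
each of `(a + b)/2` and `|a - b|/2` is `1` or an odd prime less than `2 n`. -/
def nearGoldbach (n : ℕ) : SimpleGraph {a : ℕ // Even a ∧ 2 ≤ a ∧ a ≤ 2 * n} where
  Adj a b := a ≠ b ∧ (((a : ℕ) + b) / 2 = 1 ∨ OddPrimeBelow n (((a : ℕ) + b) / 2)) ∧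
    (Nat.dist a b / 2 = 1 ∨ OddPrimeBelow n (Nat.dist a b / 2))
  symm := ⟨fun a b h => ⟨h.1.symm, by rw [add_comm (b : ℕ)]; exact h.2.1,
    by rw [Nat.dist_comm]; exact h.2.2⟩⟩
  loopless := ⟨fun _ h => h.1 rfl⟩

/-- The vertices have a bisection `H`, `Hᶜ` such that at most `3 n / log n` edges join `H` and
`Hᶜ`, and such that after the removal of a set `Z` of at most `3 n / log n` vertices no edge is left
between `H` and `Hᶜ`, both of which still have at least `n / 2 - 3 n / log n` vertices. -/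
def HasBottleneck {V : Type} (G : SimpleGraph V) (n : ℕ) : Prop :=
  ∃ H Z : Set V,
    ({p : V × V | p.1 ∈ H ∧ p.2 ∉ H ∧ G.Adj p.1 p.2}.ncard : ℝ) ≤ 3 * n / Real.log n ∧
    (Z.ncard : ℝ) ≤ 3 * n / Real.log n ∧
    (n : ℝ) / 2 - 3 * n / Real.log n ≤ ((H \ Z).ncard : ℝ) ∧
    (n : ℝ) / 2 - 3 * n / Real.log n ≤ ((Hᶜ \ Z).ncard : ℝ) ∧
    ∀ u ∈ H \ Z, ∀ v ∈ Hᶜ \ Z, ¬ G.Adj u v

open Pool.Agent.H480.GG Filter

lemma bottleneck_of {V : Type} {G : SimpleGraph V} {f : V → ℕ} {n : ℕ} (M : Model G f n)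
    (h : (Nat.primeCounting (2 * n + 3) : ℝ) + 7 ≤ 3 * n / Real.log n) : HasBottleneck G n := by
  have := M.finite
  refine ⟨{v | Half (f v)}, {v | Sep (f v)}, ?_, ?_, ?_, ?_, ?_⟩
  · have h1 := cross_count M
    have h2 : ({p : V × V | Half (f p.1) ∧ ¬ Half (f p.2) ∧ G.Adj p.1 p.2}.ncard : ℝ) ≤
        (Nat.primeCounting (2 * n + 3) : ℝ) + 2 := by exact_mod_cast h1
    refine le_trans ?_ (h2.trans (by linarith))
    exact le_rfl
  · have h1 := sep_count M
    have h2 : ({v | Sep (f v)}.ncard : ℝ) ≤ (Nat.primeCounting (2 * n + 3) : ℝ) + 4 := by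
      exact_mod_cast h1
    linarith
  · have h1 := sep_count M
    have h2 := (half_count M).1
    have h3 : {v | Half (f v)}.ncard ≤ ({v | Half (f v)} \ {v | Sep (f v)}).ncard +
        {v | Sep (f v)}.ncard := by
      refine le_trans (Set.ncard_le_ncard ?_ (Set.toFinite _)) (Set.ncard_union_le _ _)
      intro v hv
      by_cases hs : v ∈ {v | Sep (f v)}
      · exact Or.inr hs
      · exact Or.inl ⟨hv, hs⟩
    have h4 : n ≤ 2 * (({v | Half (f v)} \ {v | Sep (f v)}).ncard) +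
      2 * Nat.primeCounting (2 * n + 3) + 14 := by omega
    have h5 : (n : ℝ) ≤ 2 * (({v | Half (f v)} \ {v | Sep (f v)}).ncard : ℝ) +
      2 * (Nat.primeCounting (2 * n + 3) : ℝ) + 14 := by exact_mod_cast h4
    linarith
  · have h1 := sep_count M
    have h2 := (half_count M).2
    have h3 : {v | ¬ Half (f v)}.ncard ≤ ({v | Half (f v)}ᶜ \ {v | Sep (f v)}).ncard +
        {v | Sep (f v)}.ncard := by
      refine le_trans (Set.ncard_le_ncard ?_ (Set.toFinite _)) (Set.ncard_union_le _ _)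
      intro v hv
      by_cases hs : v ∈ {v | Sep (f v)}
      · exact Or.inr hs
      · exact Or.inl ⟨hv, hs⟩
    have h4 : n ≤ 2 * (({v | Half (f v)}ᶜ \ {v | Sep (f v)}).ncard) +
      2 * Nat.primeCounting (2 * n + 3) + 14 := by omega
    have h5 : (n : ℝ) ≤ 2 * (({v | Half (f v)}ᶜ \ {v | Sep (f v)}).ncard : ℝ) +
      2 * (Nat.primeCounting (2 * n + 3) : ℝ) + 14 := by exact_mod_cast h4
    linarith
  · rintro u ⟨hu1, hu2⟩ v ⟨hv1, hv2⟩
    exact sep M hu1 hu2 hv1 hv2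

lemma P_of {n m : ℕ} (h : OddPrimeBelow n m) : P m := Or.inr ⟨h.1, Nat.odd_iff.mp h.2.1⟩

lemma P_of' {n m : ℕ} (h : m = 1 ∨ OddPrimeBelow n m) : P m := h.elim Or.inl P_of

lemma half_add {a b : ℕ} (ha : Even a) (hb : Even b) : (a + b) / 2 = a / 2 + b / 2 := by
  obtain ⟨x, rfl⟩ := ha
  obtain ⟨y, rfl⟩ := hb
  omega

lemma half_dist {a b : ℕ} (ha : Even a) (hb : Even b) :
    Nat.dist a b / 2 = Nat.dist (a / 2) (b / 2) := by
  obtain ⟨x, rfl⟩ := ha
  obtain ⟨y, rfl⟩ := hb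
  unfold Nat.dist
  omega

lemma model_goldbach (n : ℕ) : Model (goldbach n) (fun v => (v : ℕ) / 2) n where
  inj := by
    rintro ⟨a, ha⟩ ⟨b, hb⟩ h
    simp only at h
    obtain ⟨x, hx⟩ := ha.1
    obtain ⟨y, hy⟩ := hb.1
    rw [Subtype.mk.injEq]
    omega
  le v := by
    have := v.2.2
    show (v : ℕ) / 2 ≤ n
    omega
  surj x h1 h2 := ⟨⟨2 * x, ⟨even_two_mul x, by omega⟩⟩, by simp⟩
  adj u v h := by
    obtain ⟨-, h1, h2⟩ := h
    rw [half_add u.2.1 v.2.1] at h1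
    rw [half_dist u.2.1 v.2.1] at h2
    exact ⟨P_of h1, P_of h2⟩

lemma model_near (n : ℕ) : Model (nearGoldbach n) (fun v => (v : ℕ) / 2) n where
  inj := by
    rintro ⟨a, ha⟩ ⟨b, hb⟩ h
    simp only at h
    obtain ⟨x, hx⟩ := ha.1
    obtain ⟨y, hy⟩ := hb.1
    rw [Subtype.mk.injEq]
    omega
  le v := by
    have := v.2.2.2
    show (v : ℕ) / 2 ≤ n
    omega
  surj x h1 h2 := ⟨⟨2 * x, ⟨even_two_mul x, by omega, by omega⟩⟩, by simp⟩
  adj u v h := by
    obtain ⟨-, h1, h2⟩ := h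
    rw [half_add u.2.1 v.2.1] at h1
    rw [half_dist u.2.1 v.2.1] at h2
    exact ⟨P_of' h1, P_of' h2⟩

/-- For all large `n` both graphs have the bottleneck. -/
theorem result : ∃ N : ℕ, ∀ n : ℕ, N ≤ n →
    HasBottleneck (goldbach n) n ∧ HasBottleneck (nearGoldbach n) n := by
  obtain ⟨N, hN⟩ := eventually_atTop.1 pi_bound
  exact ⟨N, fun n hn => ⟨bottleneck_of (model_goldbach n) (hN n hn),
    bottleneck_of (model_near n) (hN n hn)⟩⟩

end Pool.Agent.Results.MP_443e5f_co.Bottleneck
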