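import Pool.Agent.H480.GG.Five

/-!
# The proportion of the pairs at distance at least three, four and five in the Goldbach graphs

Every edge `{2 x, 2 y}` of `G_n` or of `G(n)` joins a multiple of `3` and a non-multiple of `3`,
except for the edges `{2 x, 2 x + 6}` with `2 x + 3` prime, the edge `{0, 6}` of `G_n` and the edge
`{2, 4}` of `G(n)`; and `x + y` is odd. So a path between two non-multiples
of `3` whose halves have different parities has to use such an exceptional edge, but cannot use it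
as its first or last edge, for almost all end points; so it has at least five edges.

The same holds for almost all pairs of multiples of `3` whose halves have different parities and are
congruent to `± 2` modulo `5`. This refinement is due to helper71, who found the theorem on the
distances independently at the same time.
-/

set_option autoImplicit false

namespace Pool.Agent.Results.MP_443e5f_co.TypicalDistances

/-- `m` is an odd prime less than `2 n`. -/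
def OddPrimeBelow (n m : ℕ) : Prop := m.Prime ∧ Odd m ∧ m < 2 * n

/-- The finite Goldbach graph `G_n` on `{0, 2, 4, …, 2 n}`: distinct `a`, `b` are adjacent iff
`(a + b)/2` and `|a - b|/2` are odd primes less than `2 n`. -/
def goldbach (n : ℕ) : SimpleGraph {a : ℕ // Even a ∧ a ≤ 2 * n} where
  Adj a b := a ≠ b ∧ OddPrimeBelow n (((a : ℕ) + b) / 2) ∧ OddPrimeBelow n (Nat.dist a b / 2)
  symm := ⟨fun a b h => ⟨h.1.symm, by rw [add_comm (b : ℕ)]; exact h.2.1,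
    by rw [Nat.dist_comm]; exact h.2.2⟩⟩
  loopless := ⟨fun _ h => h.1 rfl⟩

/-- The finite near Goldbach graph `G(n)` on `{2, 4, …, 2 n}`: distinct `a`, `b` are adjacent iff
each of `(a + b)/2` and `|a - b|/2` is `1` or an odd prime less than `2 n`. -/
def nearGoldbach (n : ℕ) : SimpleGraph {a : ℕ // Even a ∧ 2 ≤ a ∧ a ≤ 2 * n} where
  Adj a b := a ≠ b ∧ (((a : ℕ) + b) / 2 = 1 ∨ OddPrimeBelow n (((a : ℕ) + b) / 2)) ∧
    (Nat.dist a b / 2 = 1 ∨ OddPrimeBelow n (Nat.dist a b / 2))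
  symm := ⟨fun a b h => ⟨h.1.symm, by rw [add_comm (b : ℕ)]; exact h.2.1,
    by rw [Nat.dist_comm]; exact h.2.2⟩⟩
  loopless := ⟨fun _ h => h.1 rfl⟩

/-- The distance is `∞` if there is no path. Every vertex has at least `(1/6 - ε) n` vertices at
distance at least `4`; at least `(2/3 - ε) n` vertices have at least `(1/3 - ε) n` vertices at
distance at least `5`, and at least `(4/5 - ε) n` vertices have at least `(1/15 - ε) n` such
vertices. At least `(52/225 - ε) n²` ordered pairs of vertices are at distance at least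
`5`, at least `(34/75 - ε) n²` at distance at least `4`, at least `(13/18 - ε) n²` at distance at
least `3`, and each set of at least `(3/5 + ε) n` vertices contains two vertices at distance at
least `5`. -/
def FarPairs {V : Type} (G : SimpleGraph V) (ε : ℝ) (n : ℕ) : Prop :=
  (∀ u : V, (1 / 6 - ε) * n ≤ ({v | 4 ≤ G.edist u v}.ncard : ℝ)) ∧
  (2 / 3 - ε) * n ≤
    ({u : V | (1 / 3 - ε) * n ≤ ({v | 5 ≤ G.edist u v}.ncard : ℝ)}.ncard : ℝ) ∧
  (4 / 5 - ε) * n ≤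
    ({u : V | (1 / 15 - ε) * n ≤ ({v | 5 ≤ G.edist u v}.ncard : ℝ)}.ncard : ℝ) ∧
  (52 / 225 - ε) * (n : ℝ) ^ 2 ≤ ({p : V × V | 5 ≤ G.edist p.1 p.2}.ncard : ℝ) ∧
  (34 / 75 - ε) * (n : ℝ) ^ 2 ≤ ({p : V × V | 4 ≤ G.edist p.1 p.2}.ncard : ℝ) ∧
  (13 / 18 - ε) * (n : ℝ) ^ 2 ≤ ({p : V × V | 3 ≤ G.edist p.1 p.2}.ncard : ℝ) ∧
  ∀ X : Set V, (3 / 5 + ε) * n ≤ (X.ncard : ℝ) → ∃ u ∈ X, ∃ v ∈ X, 5 ≤ G.edist u v

open Pool.Agent.H480.GG Filter

lemma farPairs_of {V : Type} {G : SimpleGraph V} {f : V → ℕ} {n : ℕ} (M : Model G f n)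
    {ε δ : ℝ} (hδ : 0 < δ) (hδ1 : δ ≤ 1 / 15) (hδ2 : 8 * δ ≤ ε) (hn : 1 ≤ n)
    (h : 3 * (Nat.primeCounting (2 * n + 3) : ℝ) + 12 ≤ δ * n) : FarPairs G ε n := by
  have := M.finite
  have hn' : (1 : ℝ) ≤ n := by exact_mod_cast hn
  have hpi : (0 : ℝ) ≤ Nat.primeCounting (2 * n + 3) := Nat.cast_nonneg _
  -- the sizes of the classes
  have t0 : (1 / 6 - δ) * n ≤ ({v | T 0 (f v)}.ncard : ℝ) := by
    have h1 : n / 6 ≤ {v | T 0 (f v)}.ncard := tcount M 0 (by norm_num)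
    have h2 : n ≤ 6 * {v | T 0 (f v)}.ncard + 6 := by omega
    have h3 : (n : ℝ) ≤ 6 * ({v | T 0 (f v)}.ncard : ℝ) + 6 := by exact_mod_cast h2
    linarith
  have t1 : (1 / 6 - δ) * n ≤ ({v | T 1 (f v)}.ncard : ℝ) := by
    have h1 : n / 6 ≤ {v | T 1 (f v)}.ncard := tcount M 1 (by norm_num)
    have h2 : n ≤ 6 * {v | T 1 (f v)}.ncard + 6 := by omega
    have h3 : (n : ℝ) ≤ 6 * ({v | T 1 (f v)}.ncard : ℝ) + 6 := by exact_mod_cast h2
    linarith
  have g0 : (1 / 3 - δ) * n ≤ ({v | Gd 0 (f v)}.ncard : ℝ) := by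
    have h1 : 2 * (n / 6) ≤ {v | Gd 0 (f v)}.ncard + (3 * Nat.primeCounting (2 * n + 3) + 6) :=
      gcount M 0 (by norm_num)
    have h2 : n ≤ 3 * {v | Gd 0 (f v)}.ncard + 9 * Nat.primeCounting (2 * n + 3) + 24 := by omega
    have h3 : (n : ℝ) ≤ 3 * ({v | Gd 0 (f v)}.ncard : ℝ) +
      9 * (Nat.primeCounting (2 * n + 3) : ℝ) + 24 := by exact_mod_cast h2
    linarith
  have g1 : (1 / 3 - δ) * n ≤ ({v | Gd 1 (f v)}.ncard : ℝ) := by
    have h1 : 2 * (n / 6) ≤ {v | Gd 1 (f v)}.ncard + (3 * Nat.primeCounting (2 * n + 3) + 6) :=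
      gcount M 1 (by norm_num)
    have h2 : n ≤ 3 * {v | Gd 1 (f v)}.ncard + 9 * Nat.primeCounting (2 * n + 3) + 24 := by omega
    have h3 : (n : ℝ) ≤ 3 * ({v | Gd 1 (f v)}.ncard : ℝ) +
      9 * (Nat.primeCounting (2 * n + 3) : ℝ) + 24 := by exact_mod_cast h2
    linarith
  have p0 : (1 / 2 - δ) * n ≤ ({v | Pr 0 (f v)}.ncard : ℝ) := by
    have h1 : n / 2 ≤ {v | Pr 0 (f v)}.ncard := rcount M 2 0 (by norm_num)
    have h2 : n ≤ 2 * {v | Pr 0 (f v)}.ncard + 2 := by omega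
    have h3 : (n : ℝ) ≤ 2 * ({v | Pr 0 (f v)}.ncard : ℝ) + 2 := by exact_mod_cast h2
    linarith
  have p1 : (1 / 2 - δ) * n ≤ ({v | Pr 1 (f v)}.ncard : ℝ) := by
    have h1 : n / 2 ≤ {v | Pr 1 (f v)}.ncard := rcount M 2 1 (by norm_num)
    have h2 : n ≤ 2 * {v | Pr 1 (f v)}.ncard + 2 := by omega
    have h3 : (n : ℝ) ≤ 2 * ({v | Pr 1 (f v)}.ncard : ℝ) + 2 := by exact_mod_cast h2
    linarith
  have f0 : (1 / 15 - δ) * n ≤ ({v | F 0 (f v)}.ncard : ℝ) := by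
    have h1 : 2 * (n / 30) ≤ {v | F 0 (f v)}.ncard + (3 * Nat.primeCounting (2 * n + 3) + 7) :=
      fcount M 0 (by norm_num)
    have h2 : n ≤ 15 * {v | F 0 (f v)}.ncard + 45 * Nat.primeCounting (2 * n + 3) + 135 := by omega
    have h3 : (n : ℝ) ≤ 15 * ({v | F 0 (f v)}.ncard : ℝ) +
      45 * (Nat.primeCounting (2 * n + 3) : ℝ) + 135 := by exact_mod_cast h2
    linarith
  have f1 : (1 / 15 - δ) * n ≤ ({v | F 1 (f v)}.ncard : ℝ) := by
    have h1 : 2 * (n / 30) ≤ {v | F 1 (f v)}.ncard + (3 * Nat.primeCounting (2 * n + 3) + 7) :=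
      fcount M 1 (by norm_num)
    have h2 : n ≤ 15 * {v | F 1 (f v)}.ncard + 45 * Nat.primeCounting (2 * n + 3) + 135 := by omega
    have h3 : (n : ℝ) ≤ 15 * ({v | F 1 (f v)}.ncard : ℝ) +
      45 * (Nat.primeCounting (2 * n + 3) : ℝ) + 135 := by exact_mod_cast h2
    linarith
  have l5 : 2 * (({v | Gd 0 (f v)}.ncard : ℝ) * ({v | Gd 1 (f v)}.ncard : ℝ)) +
      2 * (({v | F 0 (f v)}.ncard : ℝ) * ({v | F 1 (f v)}.ncard : ℝ)) ≤
      ({p : V × V | 5 ≤ G.edist p.1 p.2}.ncard : ℝ) := by exact_mod_cast lower5F M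
  have l4 : 2 * (({v | Gd 0 (f v)}.ncard : ℝ) * ({v | Gd 1 (f v)}.ncard : ℝ)) +
      2 * (({v | F 0 (f v)}.ncard : ℝ) * ({v | F 1 (f v)}.ncard : ℝ)) +
      2 * (({v | T 0 (f v)}.ncard : ℝ) * ({v | Gd 0 (f v)}.ncard : ℝ)) +
      2 * (({v | T 1 (f v)}.ncard : ℝ) * ({v | Gd 1 (f v)}.ncard : ℝ)) ≤
      ({p : V × V | 4 ≤ G.edist p.1 p.2}.ncard : ℝ) := by exact_mod_cast lower4F M
  have l3 : 2 * (({v | Pr 0 (f v)}.ncard : ℝ) * ({v | Pr 1 (f v)}.ncard : ℝ)) +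
      2 * (({v | T 0 (f v)}.ncard : ℝ) * ({v | Gd 0 (f v)}.ncard : ℝ)) +
      2 * (({v | T 1 (f v)}.ncard : ℝ) * ({v | Gd 1 (f v)}.ncard : ℝ)) ≤
      ({p : V × V | 3 ≤ G.edist p.1 p.2}.ncard : ℝ) +
        ((n : ℝ) + 1) * ((Nat.primeCounting (2 * n + 3) : ℝ) + 1) := by exact_mod_cast lower3 M
  have a0 : 0 ≤ (1 / 6 - δ) * (n : ℝ) := mul_nonneg (by linarith) (by linarith)
  have a1 : 0 ≤ (1 / 3 - δ) * (n : ℝ) := mul_nonneg (by linarith) (by linarith)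
  have a2 : 0 ≤ (1 / 2 - δ) * (n : ℝ) := mul_nonneg (by linarith) (by linarith)
  have a3 : 0 ≤ (1 / 15 - δ) * (n : ℝ) := mul_nonneg (by linarith) (by linarith)
  have mff : ((1 / 15 - δ) * n) * ((1 / 15 - δ) * n) ≤
      ({v | F 0 (f v)}.ncard : ℝ) * ({v | F 1 (f v)}.ncard : ℝ) :=
    mul_le_mul f0 f1 a3 (a3.trans f0)
  have mgg : ((1 / 3 - δ) * n) * ((1 / 3 - δ) * n) ≤
      ({v | Gd 0 (f v)}.ncard : ℝ) * ({v | Gd 1 (f v)}.ncard : ℝ) :=
    mul_le_mul g0 g1 a1 (a1.trans g0)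
  have mtg0 : ((1 / 6 - δ) * n) * ((1 / 3 - δ) * n) ≤
      ({v | T 0 (f v)}.ncard : ℝ) * ({v | Gd 0 (f v)}.ncard : ℝ) :=
    mul_le_mul t0 g0 a1 (a0.trans t0)
  have mtg1 : ((1 / 6 - δ) * n) * ((1 / 3 - δ) * n) ≤
      ({v | T 1 (f v)}.ncard : ℝ) * ({v | Gd 1 (f v)}.ncard : ℝ) :=
    mul_le_mul t1 g1 a1 (a0.trans t1)
  have mpp : ((1 / 2 - δ) * n) * ((1 / 2 - δ) * n) ≤
      ({v | Pr 0 (f v)}.ncard : ℝ) * ({v | Pr 1 (f v)}.ncard : ℝ) :=
    mul_le_mul p0 p1 a2 (a2.trans p0)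
  have hn2 : (0 : ℝ) < (n : ℝ) ^ 2 := by positivity
  have c1 : (1 / 9 - 2 * δ / 3) * (n : ℝ) ^ 2 ≤ ((1 / 3 - δ) * n) * ((1 / 3 - δ) * n) := by
    have : ((1 / 3 - δ) * n) * ((1 / 3 - δ) * n) - (1 / 9 - 2 * δ / 3) * (n : ℝ) ^ 2 =
      (δ * n) ^ 2 := by ring
    have := sq_nonneg (δ * (n : ℝ))
    linarith
  have c2 : (1 / 18 - δ / 2) * (n : ℝ) ^ 2 ≤ ((1 / 6 - δ) * n) * ((1 / 3 - δ) * n) := by
    have : ((1 / 6 - δ) * n) * ((1 / 3 - δ) * n) - (1 / 18 - δ / 2) * (n : ℝ) ^ 2 =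
      (δ * n) ^ 2 := by ring
    have := sq_nonneg (δ * (n : ℝ))
    linarith
  have c2' : (1 / 225 - 2 * δ / 15) * (n : ℝ) ^ 2 ≤ ((1 / 15 - δ) * n) * ((1 / 15 - δ) * n) := by
    have : ((1 / 15 - δ) * n) * ((1 / 15 - δ) * n) - (1 / 225 - 2 * δ / 15) * (n : ℝ) ^ 2 =
      (δ * n) ^ 2 := by ring
    have := sq_nonneg (δ * (n : ℝ))
    linarith
  have c3 : (1 / 4 - δ) * (n : ℝ) ^ 2 ≤ ((1 / 2 - δ) * n) * ((1 / 2 - δ) * n) := by
    have : ((1 / 2 - δ) * n) * ((1 / 2 - δ) * n) - (1 / 4 - δ) * (n : ℝ) ^ 2 =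
      (δ * n) ^ 2 := by ring
    have := sq_nonneg (δ * (n : ℝ))
    linarith
  have c4 : ((n : ℝ) + 1) * ((Nat.primeCounting (2 * n + 3) : ℝ) + 1) ≤ 2 * δ * (n : ℝ) ^ 2 := by
    calc ((n : ℝ) + 1) * ((Nat.primeCounting (2 * n + 3) : ℝ) + 1)
        ≤ (2 * n) * (δ * n) := by
          apply mul_le_mul (by linarith) (by linarith) (by linarith) (by linarith)
      _ = 2 * δ * (n : ℝ) ^ 2 := by ring
  have c5 : 8 * δ * (n : ℝ) ^ 2 ≤ ε * (n : ℝ) ^ 2 :=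
    mul_le_mul_of_nonneg_right hδ2 hn2.le
  have c6 : 0 ≤ δ * (n : ℝ) ^ 2 := by positivity
  have c7 : 8 * δ * (n : ℝ) ≤ ε * n := mul_le_mul_of_nonneg_right hδ2 (by linarith)
  have c8 : 0 < δ * (n : ℝ) := by positivity
  have g5 : ∀ b b' : ℕ, b < 2 → b' < 2 → b ≠ b' → ∀ u, Gd b (f u) →
      {v | Gd b' (f v)}.ncard ≤ {v | 5 ≤ G.edist u v}.ncard := by
    intro b b' hb hb' hbb u hu
    apply Set.ncard_le_ncard _ (Set.toFinite _)
    intro v hv
    exact dist5 M hu.1 hv.1 (by have := hu.2; have := hv.2; omega)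
  have ff5 : ∀ b b' : ℕ, b < 2 → b' < 2 → b ≠ b' → ∀ u, F b (f u) →
      {v | F b' (f v)}.ncard ≤ {v | 5 ≤ G.edist u v}.ncard := by
    intro b b' hb hb' hbb u hu
    apply Set.ncard_le_ncard _ (Set.toFinite _)
    intro v hv
    exact dist5F M hu hv (by have := hu.1; have := hv.1; omega)
  refine ⟨?_, ?_, ?_, ?_, ?_, ?_, ?_⟩
  · intro u
    have h1 := far4 M u
    have h2 : n ≤ 6 * {v | 4 ≤ G.edist u v}.ncard + 24 * Nat.primeCounting (2 * n + 3) + 54 := by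
      omega
    have h3 : (n : ℝ) ≤ 6 * ({v | 4 ≤ G.edist u v}.ncard : ℝ) +
      24 * (Nat.primeCounting (2 * n + 3) : ℝ) + 54 := by exact_mod_cast h2
    linarith
  · have h1 : {v | Gd 0 (f v)} ∪ {v | Gd 1 (f v)} ⊆
        {u : V | (1 / 3 - ε) * n ≤ ({v | 5 ≤ G.edist u v}.ncard : ℝ)} := by
      rintro u (hu | hu)
      · have h2 : {v | Gd 1 (f v)}.ncard ≤ {v | 5 ≤ G.edist u v}.ncard :=
          Set.ncard_le_ncard (fun v hv => dist5 M hu.1 hv.1
            (by have := hu.2; have := hv.2; omega)) (Set.toFinite _)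
        have h3 : ({v | Gd 1 (f v)}.ncard : ℝ) ≤ ({v | 5 ≤ G.edist u v}.ncard : ℝ) := by
          exact_mod_cast h2
        have h4 : (1 / 3 - ε) * (n : ℝ) ≤ ({v | 5 ≤ G.edist u v}.ncard : ℝ) := by linarith
        exact h4
      · have h2 : {v | Gd 0 (f v)}.ncard ≤ {v | 5 ≤ G.edist u v}.ncard :=
          Set.ncard_le_ncard (fun v hv => dist5 M hu.1 hv.1
            (by have := hu.2; have := hv.2; omega)) (Set.toFinite _)
        have h3 : ({v | Gd 0 (f v)}.ncard : ℝ) ≤ ({v | 5 ≤ G.edist u v}.ncard : ℝ) := by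
          exact_mod_cast h2
        have h4 : (1 / 3 - ε) * (n : ℝ) ≤ ({v | 5 ≤ G.edist u v}.ncard : ℝ) := by linarith
        exact h4
    have h2 := Set.ncard_le_ncard h1 (Set.toFinite _)
    rw [Set.ncard_union_eq (Set.disjoint_left.2 fun v hv hv' => by
      have := hv.2; have := hv'.2; omega) (Set.toFinite _) (Set.toFinite _)] at h2
    have h3 : ({v | Gd 0 (f v)}.ncard : ℝ) + ({v | Gd 1 (f v)}.ncard : ℝ) ≤
      ({u : V | (1 / 3 - ε) * n ≤ ({v | 5 ≤ G.edist u v}.ncard : ℝ)}.ncard : ℝ) := by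
      exact_mod_cast h2
    linarith
  · have h1 : ∀ b b' : ℕ, b < 2 → b' < 2 → b ≠ b' →
        (1 / 3 - δ) * n ≤ ({v | Gd b' (f v)}.ncard : ℝ) → {v | Gd b (f v)} ⊆
          {u : V | (1 / 15 - ε) * n ≤ ({v | 5 ≤ G.edist u v}.ncard : ℝ)} := by
      intro b b' hb hb' hbb hg u hu
      have h3 : ({v | Gd b' (f v)}.ncard : ℝ) ≤ ({v | 5 ≤ G.edist u v}.ncard : ℝ) := by
        exact_mod_cast g5 b b' hb hb' hbb u hu
      have h4 : (1 / 15 - ε) * (n : ℝ) ≤ ({v | 5 ≤ G.edist u v}.ncard : ℝ) := by linarith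
      exact h4
    have h2 : ∀ b b' : ℕ, b < 2 → b' < 2 → b ≠ b' →
        (1 / 15 - δ) * n ≤ ({v | F b' (f v)}.ncard : ℝ) → {v | F b (f v)} ⊆
          {u : V | (1 / 15 - ε) * n ≤ ({v | 5 ≤ G.edist u v}.ncard : ℝ)} := by
      intro b b' hb hb' hbb hg u hu
      have h3 : ({v | F b' (f v)}.ncard : ℝ) ≤ ({v | 5 ≤ G.edist u v}.ncard : ℝ) := by
        exact_mod_cast ff5 b b' hb hb' hbb u hu
      have h4 : (1 / 15 - ε) * (n : ℝ) ≤ ({v | 5 ≤ G.edist u v}.ncard : ℝ) := by linarith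
      exact h4
    have h3 := sum_le [{v | Gd 0 (f v)}, {v | Gd 1 (f v)}, {v | F 0 (f v)}, {v | F 1 (f v)}]
      {u : V | (1 / 15 - ε) * n ≤ ({v | 5 ≤ G.edist u v}.ncard : ℝ)}
      (by
        intro A hA
        simp only [List.mem_cons, List.not_mem_nil, or_false] at hA
        rcases hA with rfl | rfl | rfl | rfl
        · exact h1 0 1 (by norm_num) (by norm_num) (by norm_num) g1
        · exact h1 1 0 (by norm_num) (by norm_num) (by norm_num) g0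
        · exact h2 0 1 (by norm_num) (by norm_num) (by norm_num) f1
        · exact h2 1 0 (by norm_num) (by norm_num) (by norm_num) f0)
      (by
        simp only [List.pairwise_cons, List.mem_cons, List.not_mem_nil, or_false,
          forall_eq_or_imp, forall_eq, List.Pairwise.nil, and_true, IsEmpty.forall_iff,
          implies_true]
        refine ⟨⟨?_, ?_, ?_⟩, ⟨?_, ?_⟩, ?_⟩ <;>
        · intro v q1 q2
          simp only [Set.mem_ofPred_eq, Gd, Good, F] at q1 q2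
          omega)
    simp only [List.map_cons, List.map_nil, List.sum_cons, List.sum_nil, add_zero] at h3
    have h4 : ({v | Gd 0 (f v)}.ncard : ℝ) + (({v | Gd 1 (f v)}.ncard : ℝ) +
      (({v | F 0 (f v)}.ncard : ℝ) + ({v | F 1 (f v)}.ncard : ℝ))) ≤
      ({u : V | (1 / 15 - ε) * n ≤ ({v | 5 ≤ G.edist u v}.ncard : ℝ)}.ncard : ℝ) := by
      exact_mod_cast h3
    linarith
  · have e : (52 / 225 - ε) * (n : ℝ) ^ 2 ≤ 2 * ((1 / 9 - 2 * δ / 3) * (n : ℝ) ^ 2) +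
      2 * ((1 / 225 - 2 * δ / 15) * (n : ℝ) ^ 2) := by linarith
    linarith
  · have e : (34 / 75 - ε) * (n : ℝ) ^ 2 ≤ 2 * ((1 / 9 - 2 * δ / 3) * (n : ℝ) ^ 2) +
      2 * ((1 / 225 - 2 * δ / 15) * (n : ℝ) ^ 2) +
      4 * ((1 / 18 - δ / 2) * (n : ℝ) ^ 2) := by linarith
    linarith
  · have e : (13 / 18 - ε) * (n : ℝ) ^ 2 ≤ 2 * ((1 / 4 - δ) * (n : ℝ) ^ 2) +
      4 * ((1 / 18 - δ / 2) * (n : ℝ) ^ 2) - 2 * δ * (n : ℝ) ^ 2 := by linarith
    linarith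
  · intro X hX
    by_contra hcon
    push Not at hcon
    have hA : ∃ b, b < 2 ∧ (1 / 3 - δ) * n ≤ ({v | Gd b (f v)}.ncard : ℝ) ∧
        ∀ u ∈ X, ¬ Gd b (f u) := by
      by_contra hc
      push Not at hc
      obtain ⟨u, hu, hu'⟩ := hc 0 (by norm_num) g0
      obtain ⟨v, hv, hv'⟩ := hc 1 (by norm_num) g1
      have h1 := dist5 M hu'.1 hv'.1 (by have := hu'.2; have := hv'.2; omega)
      exact absurd h1 (not_le.2 (hcon u hu v hv))
    have hB : ∃ b, b < 2 ∧ (1 / 15 - δ) * n ≤ ({v | F b (f v)}.ncard : ℝ) ∧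
        ∀ u ∈ X, ¬ F b (f u) := by
      by_contra hc
      push Not at hc
      obtain ⟨u, hu, hu'⟩ := hc 0 (by norm_num) f0
      obtain ⟨v, hv, hv'⟩ := hc 1 (by norm_num) f1
      have h1 := dist5F M hu' hv' (by have := hu'.1; have := hv'.1; omega)
      exact absurd h1 (not_le.2 (hcon u hu v hv))
    obtain ⟨b1, hb1, hg, hg'⟩ := hA
    obtain ⟨b2, hb2, hh, hh'⟩ := hB
    have h3 := sum_le [X, {v | Gd b1 (f v)}, {v | F b2 (f v)}] Set.univ
      (fun A _ => Set.subset_univ A)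
      (by
        simp only [List.pairwise_cons, List.mem_cons, List.not_mem_nil, or_false,
          forall_eq_or_imp, forall_eq, List.Pairwise.nil, and_true, IsEmpty.forall_iff,
          implies_true]
        refine ⟨⟨hg', hh'⟩, ?_⟩
        intro v q1 q2
        simp only [Set.mem_ofPred_eq, Gd, Good, F] at q1 q2
        omega)
    simp only [List.map_cons, List.map_nil, List.sum_cons, List.sum_nil, add_zero] at h3
    have h4 := h3.trans (total_le M Set.univ)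
    have h5 : (X.ncard : ℝ) + (({v | Gd b1 (f v)}.ncard : ℝ) +
      ({v | F b2 (f v)}.ncard : ℝ)) ≤ n + 1 := by exact_mod_cast h4
    linarith

lemma P_of {n m : ℕ} (h : OddPrimeBelow n m) : P m := Or.inr ⟨h.1, Nat.odd_iff.mp h.2.1⟩

lemma P_of' {n m : ℕ} (h : m = 1 ∨ OddPrimeBelow n m) : P m := h.elim Or.inl P_of

lemma half_add {a b : ℕ} (ha : Even a) (hb : Even b) : (a + b) / 2 = a / 2 + b / 2 := by
  obtain ⟨x, rfl⟩ := ha
  obtain ⟨y, rfl⟩ := hb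
  omega

lemma half_dist {a b : ℕ} (ha : Even a) (hb : Even b) :
    Nat.dist a b / 2 = Nat.dist (a / 2) (b / 2) := by
  obtain ⟨x, rfl⟩ := ha
  obtain ⟨y, rfl⟩ := hb
  unfold Nat.dist
  omega

lemma model_goldbach (n : ℕ) : Model (goldbach n) (fun v => (v : ℕ) / 2) n where
  inj := by
    rintro ⟨a, ha⟩ ⟨b, hb⟩ h
    simp only at h
    obtain ⟨x, hx⟩ := ha.1
    obtain ⟨y, hy⟩ := hb.1
    rw [Subtype.mk.injEq]
    omega
  le v := by
    have := v.2.2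
    show (v : ℕ) / 2 ≤ n
    omega
  surj x h1 h2 := ⟨⟨2 * x, ⟨even_two_mul x, by omega⟩⟩, by simp⟩
  adj u v h := by
    obtain ⟨-, h1, h2⟩ := h
    rw [half_add u.2.1 v.2.1] at h1
    rw [half_dist u.2.1 v.2.1] at h2
    exact ⟨P_of h1, P_of h2⟩

lemma model_near (n : ℕ) : Model (nearGoldbach n) (fun v => (v : ℕ) / 2) n where
  inj := by
    rintro ⟨a, ha⟩ ⟨b, hb⟩ h
    simp only at h
    obtain ⟨x, hx⟩ := ha.1
    obtain ⟨y, hy⟩ := hb.1
    rw [Subtype.mk.injEq]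
    omega
  le v := by
    have := v.2.2.2
    show (v : ℕ) / 2 ≤ n
    omega
  surj x h1 h2 := ⟨⟨2 * x, ⟨even_two_mul x, by omega, by omega⟩⟩, by simp⟩
  adj u v h := by
    obtain ⟨-, h1, h2⟩ := h
    rw [half_add u.2.1 v.2.1] at h1
    rw [half_dist u.2.1 v.2.1] at h2
    exact ⟨P_of' h1, P_of' h2⟩

/-- For every `ε > 0` and all large `n` the bounds hold for both graphs. -/
theorem result (ε : ℝ) (hε : 0 < ε) : ∃ N : ℕ, ∀ n : ℕ, N ≤ n →
    FarPairs (goldbach n) ε n ∧ FarPairs (nearGoldbach n) ε n := by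
  have hδ : 0 < min (1 / 15) (ε / 8) := lt_min (by norm_num) (by linarith)
  have h := (pi_small _ hδ).and (eventually_ge_atTop 1)
  obtain ⟨N, hN⟩ := eventually_atTop.1 h
  refine ⟨N, fun n hn => ?_⟩
  obtain ⟨h2, h3⟩ := hN n hn
  have h4 : min (1 / 15) (ε / 8) ≤ 1 / 15 := min_le_left _ _
  have h5 : 8 * min (1 / 15) (ε / 8) ≤ ε := by
    have := min_le_right (1 / 15) (ε / 8)
    linarith
  exact ⟨farPairs_of (model_goldbach n) hδ h4 h5 h3 h2, farPairs_of (model_near n) hδ h4 h5 h3 h2⟩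

end Pool.Agent.Results.MP_443e5f_co.TypicalDistances
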